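import Pool.Agent.helper12.DD.Spec2

set_option autoImplicit false

open Pool.Agent.helper49.Blk

namespace Pool.Agent.DD

/-- The isomorphism `(T → G) ≃ (T' → G) × G` for `e : T ≃ Option T'`. -/
def PWR_iso (G : Type) [Group G] {T T' : Type} (e : T ≃ Option T') :
    (T → G) ≃* (T' → G) × G where
  toFun f := (fun t => f (e.symm (some t)), f (e.symm none))
  invFun x := fun t => Option.elim (e t) x.2 x.1
  left_inv f := by
    funext t
    change Option.elim (e t) (f (e.symm none)) (fun t => f (e.symm (some t))) = f t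
    cases h : e t with
    | none =>
      change f (e.symm none) = f t
      rw [← h, e.symm_apply_apply]
    | some s =>
      change f (e.symm (some s)) = f t
      rw [← h, e.symm_apply_apply]
  right_inv x := by
    refine Prod.ext ?_ ?_
    · funext t
      change Option.elim (e (e.symm (some t))) x.2 x.1 = x.1 t
      rw [e.apply_symm_apply]
      rfl
    · change Option.elim (e (e.symm none)) x.2 x.1 = x.2
      rw [e.apply_symm_apply]
      rfl
  map_mul' f g := rfl

lemma PWR_tpow {G T T' : Type} [Group G] [Fintype T] [Fintype T'] (e : T ≃ Option T')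
    (χ : G → ℂ) : (fun x => ot (tpow T' χ) χ (PWR_iso G e x)) = tpow T χ := by
  funext f
  change (∏ t, χ (f (e.symm (some t)))) * χ (f (e.symm none)) = ∏ t, χ (f t)
  rw [← Equiv.prod_comp e.symm (fun t => χ (f t)), Fintype.prod_option, mul_comm]

/-- The isomorphism `G ≃ (T → G)` for a one-element type `T`. -/
def PWR_one (G : Type) [Group G] (T : Type) [Unique T] : G ≃* (T → G) where
  toFun x := fun _ => x
  invFun f := f default
  left_inv _ := rfl
  right_inv f := by
    funext t
    change f default = f t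
    rw [Unique.eq_default t]
  map_mul' _ _ := rfl

lemma PWR_map_top {A B : Type} [Group A] [Group B] (β : A ≃* B) :
    (⊤ : Subgroup A).map β.toMonoidHom = ⊤ :=
  Subgroup.map_top_of_surjective _ β.surjective

lemma PWR_aux (hTRP : TRP_stmt) (p : ℕ) [hp : Fact p.Prime] (M : Ideal (integralClosure ℤ ℂ))
    (X : Case p M) (hU : X.U = ⊤) (n : ℕ) : ∀ (T : Type) [Fintype T], Fintype.card T = n + 1 →
    tpow T X.χ ∈ Irr (T → X.G) ∧ ∀ d : ℕ,
      altQ p M (X.ι.compLeft T) (tpow T X.χ) d ⊤ = (((X.poly) ^ (n + 1)).coeff d : ℚ) := by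
  induction n with
  | zero =>
    intro T _ hT
    have hT1 : Fintype.card T = 1 := by simpa using hT
    haveI : Subsingleton T := Fintype.card_le_one_iff_subsingleton.1 hT1.le
    haveI : Nonempty T := Fintype.card_pos_iff.1 (by omega)
    haveI : Unique T := uniqueOfSubsingleton (Classical.arbitrary T)
    have hχ : (fun x => tpow T X.χ (PWR_one X.G T x)) = X.χ := by
      funext x
      change ∏ t : T, X.χ x = X.χ x
      rw [Fintype.prod_unique]
    refine ⟨?_, fun d => ?_⟩
    · rw [TRI X.G (T → X.G) (PWR_one X.G T), hχ]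
      exact X.irr
    · have h := hTRP X.G X.E (T → X.G) (T → X.E) X.ι (X.ι.compLeft T) (PWR_one X.G T)
        (PWR_one X.E T) (fun x => rfl) p M (tpow T X.χ) d ⊤
      rw [PWR_map_top, hχ] at h
      rw [h, zero_add, pow_one, X.poly_coeff, X.alt_eq, hU]
  | succ n ih =>
    intro T _ hT
    have e : T ≃ Option (Fin (n + 1)) := Fintype.equivOfCardEq (by
      rw [hT, Fintype.card_option, Fintype.card_fin])
    obtain ⟨hi, ha⟩ := ih (Fin (n + 1)) (Fintype.card_fin _)
    refine ⟨?_, fun d => ?_⟩
    · rw [← PWR_tpow e X.χ]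
      exact (TRI (T → X.G) ((Fin (n + 1) → X.G) × X.G) (PWR_iso X.G e) _).1
        ((all_IRG _ _ _).2 ⟨_, hi, _, X.irr, rfl⟩)
    · have h := hTRP (T → X.G) (T → X.E) ((Fin (n + 1) → X.G) × X.G)
        ((Fin (n + 1) → X.E) × X.E) (X.ι.compLeft T) ((X.ι.compLeft (Fin (n + 1))).prodMap X.ι)
        (PWR_iso X.G e) (PWR_iso X.E e) (fun x => rfl) p M (ot (tpow (Fin (n + 1)) X.χ) X.χ) d ⊤
      rw [PWR_map_top, PWR_tpow] at h
      have hinj : Function.Injective (X.ι.compLeft (Fin (n + 1))) := by
        intro f g hfg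
        funext t
        exact X.inj (congrFun hfg t)
      have h2 := all_PRD p hp.out M (Fin (n + 1) → X.G) X.G (Fin (n + 1) → X.E) X.E
        (X.ι.compLeft (Fin (n + 1))) X.ι hinj X.inj (tpow (Fin (n + 1)) X.χ) hi X.χ X.irr d ⊤ ⊤
      rw [Subgroup.top_prod_top] at h2
      rw [← h, h2, pow_succ X.poly (n + 1), Polynomial.coeff_mul]
      push_cast
      refine Finset.sum_congr rfl fun ij _ => ?_
      rw [ha, X.poly_coeff ij.2, X.alt_eq ij.2, hU]

theorem PWR (hTRP : TRP_stmt) : PWR_stmt := by
  intro p _ M X hU n T _ hT d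
  exact (PWR_aux hTRP p M X hU n T hT).2 d

end Pool.Agent.DD
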